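import Pool.Agent.V113.KR.S

/-!
# MP_7d928b_an, Q2: proved

For every `1 < p < ∞`: if the `A^p` extremal function `F` of a nonzero kernel `k ∈ A^q` lies in
`H^∞`, then `k` lies in `BMOA`.

Idea of the proof. For a polynomial `g` the pairing `∑ gₙ conj kₙ` equals, by the extremal relation,
a constant times `∫ (zg)' |F|^(p-2) conj F dA`. By Green's formula with the weight `1 - |z|²` this is
a boundary term plus the integral of `g Δ(|F|^(p-2) conj F)`, which is bounded pointwise by a constant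
times `G ΔU`, `U = (|F|²+ε)^((p-1)/2)`, `G = (|g|²+1)^(1/2)`. The key is the pointwise inequality
`G ΔU ≤ Δ(G (1 + U + U²))`; as `U` is bounded, Green's formula shows that `k` defines a bounded
functional on `H^1`. Testing it on the projections of atoms bounds the mean oscillation.
-/

open MeasureTheory Set Filter Topology Complex Metric
open scoped ComplexConjugate

namespace Pool.Agent.Results.MP_7d928b_an.KernelInBMOA

/-- Area measure on the unit disc. -/
noncomputable def dA : Measure ℂ := volume.restrict (ball (0 : ℂ) 1)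

/-- `f` belongs to the Bergman space `A^p`. -/
def InBergman (p : ℝ) (f : ℂ → ℂ) : Prop :=
  DifferentiableOn ℂ f (ball 0 1) ∧ Integrable (fun z => ‖f z‖ ^ p) dA

/-- The norm of `A^p`. -/
noncomputable def bergmanNorm (p : ℝ) (f : ℂ → ℂ) : ℝ := (∫ z, ‖f z‖ ^ p ∂dA) ^ (1 / p)

/-- The functional `f ↦ ∫ f conj k dA` with kernel `k`. -/
noncomputable def functional (k f : ℂ → ℂ) : ℂ := ∫ z, f z * conj (k z) ∂dA

/-- `F` is the `A^p` extremal function for the kernel `k`: it has norm one in `A^p` and maximises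
`Re ∫ f conj k dA` among all `f ∈ A^p` of norm one. -/
structure IsExtremal (p : ℝ) (k F : ℂ → ℂ) : Prop where
  mem : InBergman p F
  norm_eq : bergmanNorm p F = 1
  max : ∀ f : ℂ → ℂ, InBergman p f → bergmanNorm p f = 1 →
    (functional k f).re ≤ (functional k F).re

/-- `f` is a bounded analytic function on the disc. -/
def InHInfinity (f : ℂ → ℂ) : Prop :=
  DifferentiableOn ℂ f (ball 0 1) ∧ ∃ M : ℝ, ∀ z ∈ ball (0 : ℂ) 1, ‖f z‖ ≤ M

/-- `f` belongs to the Hardy space `H²`: analytic, with bounded quadratic means on circles. -/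
def InHardyTwo (f : ℂ → ℂ) : Prop :=
  DifferentiableOn ℂ f (ball 0 1) ∧ ∃ C : ℝ, ∀ r : ℝ, 0 < r → r < 1 →
    (2 * Real.pi)⁻¹ * ∫ θ in (0:ℝ)..(2 * Real.pi), ‖f (r * Complex.exp (θ * I))‖ ^ 2 ≤ C

/-- `b` (a `2π`-periodic function of the angle) is the boundary function of `f`: it is square
integrable on the circle and the dilates `θ ↦ f(r e^{iθ})` converge to it in `L²` as `r → 1`. -/
def IsBoundaryFunction (f : ℂ → ℂ) (b : ℝ → ℂ) : Prop :=
  Measurable b ∧ Function.Periodic b (2 * Real.pi) ∧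
    IntervalIntegrable (fun θ => ‖b θ‖ ^ 2) volume 0 (2 * Real.pi) ∧
    Tendsto (fun r : ℝ => ∫ θ in (0:ℝ)..(2 * Real.pi), ‖f (r * Complex.exp (θ * I)) - b θ‖ ^ 2)
      (𝓝[<] 1) (𝓝 0)

/-- `b` has bounded mean oscillation on the unit circle (all arcs, parametrised by the angle). -/
def HasBMO (b : ℝ → ℂ) : Prop :=
  ∃ C : ℝ, ∀ α β : ℝ, α < β → β ≤ α + 2 * Real.pi →
    (β - α)⁻¹ * ∫ θ in α..β, ‖b θ - ((β - α)⁻¹ : ℝ) • ∫ t in α..β, b t‖ ≤ C

/-- `BMOA`: functions in `H²` whose boundary values have bounded mean oscillation. -/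
def InBMOA (f : ℂ → ℂ) : Prop :=
  InHardyTwo f ∧ ∃ b : ℝ → ℂ, IsBoundaryFunction f b ∧ HasBMO b

/-- **Q2 holds.** For every `1 < p < ∞`: if the `A^p` extremal function `F` of a nonzero kernel
`k ∈ A^q`, `q = p/(p-1)`, is bounded, then `k ∈ BMOA`. -/
theorem result (p : ℝ) (hp : 1 < p) (k F : ℂ → ℂ)
    (hk : InBergman (p / (p - 1)) k) (_hk0 : ∃ z ∈ ball (0 : ℂ) 1, k z ≠ 0)
    (hF : IsExtremal p k F) (hFb : InHInfinity F) : InBMOA k := by
  have hp0 : 0 < p := by linarith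
  have hpi := Real.pi_pos
  obtain ⟨_, M, hM⟩ := hFb
  have hint1 : ∀ g : ℂ → ℂ, bergmanNorm p g = 1 → ∫ z, ‖g z‖ ^ p ∂dA = 1 := by
    intro g hg
    have h0 : 0 ≤ ∫ z, ‖g z‖ ^ p ∂dA := integral_nonneg fun z => by positivity
    have h1 : (bergmanNorm p g) ^ p = ∫ z, ‖g z‖ ^ p ∂dA := by
      unfold bergmanNorm
      rw [← Real.rpow_mul h0, one_div_mul_cancel hp0.ne', Real.rpow_one]
    rw [← h1, hg, Real.one_rpow]
  have hsgi : ∀ v : ℂ → ℝ, ∫ z, v z ∂Pool.Agent.V113.KR.sg = Real.pi⁻¹ * ∫ z, v z ∂dA := fun v =>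
    Pool.Agent.V113.KR.sg_int v
  have hsgc : ∀ v : ℂ → ℂ, ∫ z, v z ∂Pool.Agent.V113.KR.sg = ((Real.pi⁻¹ : ℝ) : ℂ) * ∫ z, v z ∂dA := by
    intro v
    rw [Pool.Agent.V113.KR.sg_int v, Complex.real_smul]
    rfl
  -- normalisation
  set c : ℝ := Real.pi ^ (1 / p) with hc
  have hc0 : 0 < c := Real.rpow_pos_of_pos hpi _
  have hcp : c ^ p = Real.pi := by
    rw [hc, ← Real.rpow_mul hpi.le, one_div_mul_cancel hp0.ne', Real.rpow_one]
  have hnorm : ∀ (g : ℂ → ℂ) (x : ℝ), 0 < x → ∀ z, ‖(x : ℂ) * g z‖ ^ p = x ^ p * ‖g z‖ ^ p := by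
    intro g x hx z
    rw [norm_mul, Complex.norm_real, Real.norm_of_nonneg hx.le,
      Real.mul_rpow hx.le (norm_nonneg _)]
  have hF1 := hint1 F hF.norm_eq
  have h1 : DifferentiableOn ℂ (fun z => (c : ℂ) * F z) Pool.Agent.V113.KR.DD := hF.mem.1.const_mul _
  have h2 : Integrable (fun z => ‖(c : ℂ) * F z‖ ^ p) Pool.Agent.V113.KR.sg := by
    simp only [hnorm F c hc0]
    exact (Pool.Agent.V113.KR.sg_integrable.mpr hF.mem.2).const_mul _
  have h3 : ∫ z, ‖(c : ℂ) * F z‖ ^ p ∂Pool.Agent.V113.KR.sg = 1 := by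
    simp only [hnorm F c hc0]
    rw [hsgi, integral_const_mul, hF1, hcp, mul_one, inv_mul_cancel₀ hpi.ne']
  have h4 : Integrable (fun z => ‖k z‖ ^ (p / (p - 1))) Pool.Agent.V113.KR.sg :=
    Pool.Agent.V113.KR.sg_integrable.mpr hk.2
  have h5 : ∀ g : ℂ → ℂ, DifferentiableOn ℂ g Pool.Agent.V113.KR.DD →
      Integrable (fun z => ‖g z‖ ^ p) Pool.Agent.V113.KR.sg →
      ∫ z, ‖g z‖ ^ p ∂Pool.Agent.V113.KR.sg = 1 →
      (∫ z, g z * conj (k z) ∂Pool.Agent.V113.KR.sg).re ≤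
        (∫ z, (c : ℂ) * F z * conj (k z) ∂Pool.Agent.V113.KR.sg).re := by
    intro g hg hgi hg1
    have hci : 0 < c⁻¹ := by positivity
    have hgA : Integrable (fun z => ‖g z‖ ^ p) dA := Pool.Agent.V113.KR.sg_integrable.mp hgi
    have hg2 : ∫ z, ‖g z‖ ^ p ∂dA = Real.pi := by
      have := hsgi (fun z => ‖g z‖ ^ p)
      rw [hg1] at this
      field_simp at this
      linarith
    have hmem : InBergman p (fun z => ((c⁻¹ : ℝ) : ℂ) * g z) := by
      refine ⟨hg.const_mul _, ?_⟩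
      simp only [hnorm g c⁻¹ hci]
      exact hgA.const_mul _
    have hn1 : bergmanNorm p (fun z => ((c⁻¹ : ℝ) : ℂ) * g z) = 1 := by
      unfold bergmanNorm
      simp only [hnorm g c⁻¹ hci]
      rw [integral_const_mul, hg2, Real.inv_rpow hc0.le, hcp, inv_mul_cancel₀ hpi.ne',
        Real.one_rpow]
    have h6 := hF.max _ hmem hn1
    unfold functional at h6
    have e1 : ∫ z, ((c⁻¹ : ℝ) : ℂ) * g z * conj (k z) ∂dA =
        ((c⁻¹ : ℝ) : ℂ) * ∫ z, g z * conj (k z) ∂dA := by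
      rw [← integral_const_mul]
      congr 1
      funext z
      ring
    have e2 : ∫ z, (c : ℂ) * F z * conj (k z) ∂dA = (c : ℂ) * ∫ z, F z * conj (k z) ∂dA := by
      rw [← integral_const_mul]
      congr 1
      funext z
      ring
    rw [e1, Complex.re_ofReal_mul, inv_mul_le_iff₀ hc0] at h6
    rw [hsgc, hsgc, e2, Complex.re_ofReal_mul, Complex.re_ofReal_mul, Complex.re_ofReal_mul]
    exact mul_le_mul_of_nonneg_left h6 (by positivity)
  have h6 : ∀ z ∈ Pool.Agent.V113.KR.DD, ‖(c : ℂ) * F z‖ ≤ c * M := by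
    intro z hz
    rw [norm_mul, Complex.norm_real, Real.norm_of_nonneg hc0.le]
    exact mul_le_mul_of_nonneg_left (hM z hz) hc0.le
  obtain ⟨⟨B0, hB0⟩, b, hb, hper, hb2, hlim, C, hC⟩ :=
    Pool.Agent.V113.KR.main2 hp h1 hk.1 h2 h3 h4 h5 h6
  refine ⟨⟨hk.1, B0, fun r hr hr1 => ?_⟩, b, ⟨hb, hper, hb2, hlim⟩, C, hC⟩
  have h7 := hB0 (Real.log r) (Real.log_neg hr hr1)
  unfold Pool.Agent.V113.KR.avg at h7
  have hpt : ∀ θ : ℝ, Pool.Agent.V113.KR.pt (Real.log r) θ = (r : ℂ) * Complex.exp (θ * I) := by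
    intro θ
    unfold Pool.Agent.V113.KR.pt
    rw [Complex.exp_add, ← Complex.ofReal_exp, Real.exp_log hr]
  simp only [hpt, smul_eq_mul] at h7
  refine le_trans (le_of_eq ?_) h7
  congr 1
  apply intervalIntegral.integral_congr
  intro θ _
  exact (Real.rpow_natCast _ 2).symm

end Pool.Agent.Results.MP_7d928b_an.KernelInBMOA
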